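import Pool.Agent.Helper69.TwoRank

/-!
# Commutator width of a solvable group is bounded by the 2-ranks of its derived coinvariants
-/

namespace Pool.Agent.Results.MP_178833_al.TwoRankWidth

universe u

/-- **Main result.** Let `G` be a solvable group with `k` generators and `G^(d) = 1`. Suppose that
for every `m` with `3 ≤ m < d` the derived group `G^(m)` is generated by some `r m` elements
together with the squares of its elements and the commutators `⁅a, g⁆`, `a ∈ G^(m)`, `g ∈ G`, i.e.
the elementary abelian `2`-group `G^(m) / (G^(m))² ⁅G^(m), G⁆` has rank at most `r m`. Then every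
element of the commutator subgroup is a product of
`k ^ 2 + 3 k + ∑_{m = 3}^{d - 1} (3 k + r m)` commutators. -/
theorem result (k d : ℕ) (r : ℕ → ℕ) {G : Type u} [Group G] (x : Fin k → G)
    (hx : Subgroup.closure (Set.range x) = ⊤) (hd : derivedSeries G d = ⊥)
    (hr : ∀ m, 3 ≤ m → m < d → ∃ c : Fin (r m) → G, (∀ i, c i ∈ derivedSeries G m) ∧
      derivedSeries G m ≤
        Subgroup.closure (Set.range c ∪ {y | ∃ a ∈ derivedSeries G m, y = a ^ 2}) ⊔
          ⁅derivedSeries G m, (⊤ : Subgroup G)⁆)
    (g : G) (hg : g ∈ derivedSeries G 1) :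
    ∃ a b : Fin (k ^ 2 + 3 * k + ∑ m ∈ Finset.Ico 3 d, (3 * k + r m)) → G,
      g = (List.ofFn fun i => a i * b i * (a i)⁻¹ * (b i)⁻¹).prod := by
  have hgen : Subgroup.closure {y | y ∈ List.ofFn x} = ⊤ := by
    have : {y | y ∈ List.ofFn x} = Set.range x := by
      ext y; simp
    rw [this, hx]
  have hlen : (List.ofFn x).length = k := by simp
  have main : Pool.Agent.Helper26.CW.IsProdComm
      (k ^ 2 + 3 * k + ∑ m ∈ Finset.Ico 3 d, (3 * k + r m)) g := by
    by_cases h3 : 3 ≤ d
    · obtain ⟨e, rfl⟩ := Nat.exists_eq_add_of_le h3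
      rw [add_comm 3 e] at hd hr ⊢
      exact Pool.Agent.Helper69.TR.width_rank k e r G (List.ofFn x) hlen hgen hd
        (fun m hm hm' => hr m hm hm') g hg
    · have hd3 : derivedSeries G 3 = ⊥ := by
        rw [eq_bot_iff, ← hd]
        exact derivedSeries_antitone G (by omega)
      have h := Pool.Agent.Helper69.TR.width_rank k 0 r G (List.ofFn x) hlen hgen hd3
        (fun m hm hm' => absurd hm' (by omega)) g hg
      refine h.mono ?_
      simp
  exact main.exists_fin

end Pool.Agent.Results.MP_178833_al.TwoRankWidth
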